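import Pool.Agent.H63.SEP.Stmts
import Pool.Agent.H93.CT.Stmts

/-!
Project SEP, module DIC: a relation has an infinite path or a rank function.
-/

set_option linter.unusedVariables false
set_option synthInstance.maxSize 100000

namespace SW.SEP

open SW

theorem sep_dic (hD : DCXStmt) (hW : WFRStmt) : DICStmt := by
  intro M _ _ X x0 R hR hx0
  -- the well-founded part
  let U : M := sep X (fun x => ∀ a, Sub a X → E x a → ∃ z, E z a ∧ ∀ y, E y a → ¬ R z y)
  have hU : ∀ x, E x U ↔ E x X ∧ ∀ a, Sub a X → E x a → ∃ z, E z a ∧ ∀ y, E y a → ¬ R z y :=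
    fun x => mem_sep
  by_cases h0 : E x0 U
  swap
  · left
    rw [hU] at h0
    push Not at h0
    obtain ⟨a, ha, hxa, h⟩ := h0 hx0
    obtain ⟨f, hf0, hf⟩ := hD M a x0 R hR hxa fun z hz => by
      obtain ⟨y, hy, hr⟩ := h z hz
      exact ⟨y, hy, hr⟩
    exact ⟨f, hf0, fun n hn => ⟨ha _ (hf n hn).1, (hf n hn).2⟩⟩
  · right
    have hcl : ∀ x y, E x U → E y X → R x y → E y U := by
      intro x y hx hy hr
      rw [hU] at hx ⊢
      refine ⟨hy, fun a ha hya => ?_⟩
      by_contra hcon
      push Not at hcon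
      obtain ⟨z, hz, hz'⟩ := hx.2 (ins x a) (fun z hz => by
        rw [mem_ins] at hz
        rcases hz with hz | rfl
        · exact ha z hz
        · exact hx.1) (by rw [mem_ins]; exact Or.inr rfl)
      rw [mem_ins] at hz
      rcases hz with hz | rfl
      · obtain ⟨y', hy', hr'⟩ := hcon z hz
        exact hz' y' (by rw [mem_ins]; exact Or.inl hy') hr'
      · exact hz' y (by rw [mem_ins]; exact Or.inl hya) hr
    have hwf : ∀ a, Sub a U → (∃ x, E x a) → ∃ x, E x a ∧ ∀ y, E y a → ¬ R x y := by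
      rintro a ha ⟨x, hx⟩
      exact ((hU x).1 (ha x hx)).2 a (fun z hz => ((hU z).1 (ha z hz)).1) hx
    let F : M → M → M := fun x g => sUn (img g (fun t => suc (p2 t)))
    have hF : Fn2 F := by
      show DfT (fun w : Fin 2 → M => sUn (img (w 1) (fun t => suc (p2 t))))
      infer_instance
    have hR' : Cl2 (fun y x : M => R x y) :=
      Df.comp2 (R := fun a b => R a b) hR (inferInstance : DfT (fun w : Fin 2 → M => w 1))
        (inferInstance : DfT (fun w : Fin 2 → M => w 0))
    obtain ⟨r, hr⟩ := hW M U (fun y x => R x y) F hR' hF hwf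
    have hr1 : ∀ x, E x U → ∀ z, E z (app r x) ↔ ∃ y, E y U ∧ R x y ∧ E z (suc (app r y)) := by
      intro x hx z
      rw [hr x hx]
      show E z (sUn (img (gr (sep U (fun y => R x y)) (fun y => app r y))
        (fun t => suc (p2 t)))) ↔ _
      rw [mem_sUn]
      constructor
      · rintro ⟨w, hw, hz⟩
        rw [mem_img] at hw
        obtain ⟨t, ht, rfl⟩ := hw
        rw [mem_gr' inferInstance] at ht
        obtain ⟨y, hy, rfl⟩ := ht
        rw [mem_sep] at hy
        rw [p2_opair] at hz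
        exact ⟨y, hy.1, hy.2, hz⟩
      · rintro ⟨y, hy, hxy, hz⟩
        refine ⟨suc (app r y), ?_, hz⟩
        rw [mem_img]
        refine ⟨opair y (app r y), ?_, by rw [p2_opair]⟩
        rw [mem_gr' inferInstance]
        exact ⟨y, by rw [mem_sep]; exact ⟨hy, hxy⟩, rfl⟩
    refine ⟨U, r, fun z hz => ((hU z).1 hz).1, h0, ?_, ?_⟩
    · by_contra hcon
      push Not at hcon
      obtain ⟨x1, hx1, hx1'⟩ := hcon
      obtain ⟨x, hx, hmin⟩ := hwf (sep U (fun x => ¬ Ord (app r x)))
        (fun z hz => by rw [mem_sep] at hz; exact hz.1) ⟨x1, by rw [mem_sep]; exact ⟨hx1, hx1'⟩⟩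
      rw [mem_sep] at hx
      obtain ⟨hxU, hxo⟩ := hx
      apply hxo
      have h1 : app r x = sUn (img (sep U (fun y => R x y)) (fun y => suc (app r y))) := by
        refine ext fun z => ?_
        rw [hr1 x hxU, mem_sUn]
        constructor
        · rintro ⟨y, hy, hxy, hz⟩
          refine ⟨_, ?_, hz⟩
          rw [mem_img]
          exact ⟨y, by rw [mem_sep]; exact ⟨hy, hxy⟩, rfl⟩
        · rintro ⟨w, hw, hz⟩
          rw [mem_img] at hw
          obtain ⟨y, hy, rfl⟩ := hw
          rw [mem_sep] at hy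
          exact ⟨y, hy.1, hy.2, hz⟩
      rw [h1]
      refine Ord_sUn fun w hw => ?_
      rw [mem_img] at hw
      obtain ⟨y, hy, rfl⟩ := hw
      rw [mem_sep] at hy
      refine Ord_suc ?_
      by_contra hc
      exact hmin y (by rw [mem_sep]; exact ⟨hy.1, hc⟩) hy.2
    · intro x y hx hy hxy
      have hyU := hcl x y hx hy hxy
      exact ⟨hyU, (hr1 x hx _).2 ⟨y, hyU, hxy, by rw [mem_suc]; exact Or.inr rfl⟩⟩

end SW.SEP
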