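import Pool.Agent.H63.SEP.Stmts

/-!
Project SEP, module WFR: recursion on a well-founded relation on a set.
-/

set_option linter.unusedVariables false
set_option synthInstance.maxSize 100000

namespace SW.SEP

open SW

section
variable {M : Type} [SetStr M] [ZF M]

theorem wfr_gr_congr {a : M} {f f' : M → M} (hf : Fn1 f) (hf' : Fn1 f')
    (h : ∀ u, E u a → f u = f' u) : gr a f = gr a f' := by
  refine ext fun z => ?_
  rw [mem_gr' hf, mem_gr' hf']
  constructor
  · rintro ⟨y, hy, rfl⟩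
    exact ⟨y, hy, by rw [h y hy]⟩
  · rintro ⟨y, hy, rfl⟩
    exact ⟨y, hy, by rw [h y hy]⟩

/-- attempts -/
def WAtt (X : M) (R : M → M → Prop) (F : M → M → M) (g : M) : Prop :=
  ∀ x y, E (opair x y) g → E x X ∧
    y = F x (gr (sep X (fun y => R y x)) (fun y => app g y)) ∧
    (∀ u, E u X → R u x → ∃ w, E (opair u w) g) ∧ ∀ y', E (opair x y') g → y' = y

theorem WAtt_df {X : M} {R : M → M → Prop} {F : M → M → M} (hR : Cl2 R) (hF : Fn2 F) :
    Cl (fun g : M => WAtt X R F g) := by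
  unfold WAtt
  infer_instance

theorem WAtt.app {X : M} {R : M → M → Prop} {F : M → M → M} {g x y : M} (hg : WAtt X R F g)
    (h : E (opair x y) g) : app g x = y :=
  the_eq (p := fun w => E (opair x w) g) h fun z hz => (hg x y h).2.2.2 z hz

theorem WAtt.uniq {X : M} {R : M → M → Prop} {F : M → M → M} (hR : Cl2 R) (hF : Fn2 F)
    (hw : ∀ a, Sub a X → (∃ x, E x a) → ∃ x, E x a ∧ ∀ y, E y a → ¬ R y x) {g g' : M}
    (hg : WAtt X R F g) (hg' : WAtt X R F g') {x y y' : M} (h : E (opair x y) g)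
    (h' : E (opair x y') g') : y = y' := by
  by_contra hne
  obtain ⟨x0, hx0, hmin⟩ := hw
    (sep X (fun x => ∃ y y', E (opair x y) g ∧ E (opair x y') g' ∧ ¬ y = y'))
    (fun z hz => by rw [mem_sep] at hz; exact hz.1)
    ⟨x, by rw [mem_sep]; exact ⟨(hg x y h).1, y, y', h, h', hne⟩⟩
  rw [mem_sep] at hx0
  obtain ⟨hx0, y0, y0', h0, h0', hne0⟩ := hx0
  obtain ⟨_, e1, c1, _⟩ := hg _ _ h0
  obtain ⟨_, e2, c2, _⟩ := hg' _ _ h0'
  apply hne0
  rw [e1, e2]
  congr 1
  refine wfr_gr_congr inferInstance inferInstance fun u hu => ?_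
  rw [mem_sep] at hu
  obtain ⟨w, hw1⟩ := c1 u hu.1 hu.2
  obtain ⟨w', hw2⟩ := c2 u hu.1 hu.2
  rw [hg.app hw1, hg'.app hw2]
  by_contra hne1
  exact hmin u (by rw [mem_sep]; exact ⟨hu.1, w, w', hw1, hw2, hne1⟩) hu.2

end

theorem sep_wfr : WFRStmt := by
  intro M _ _ X R F hR hF hw
  have hA : Cl (fun g : M => WAtt X R F g) := WAtt_df hR hF
  -- the values
  let W : M → M := fun x => the (fun y => ∃ g, WAtt X R F g ∧ E (opair x y) g)
  have hW : Fn1 W := by
    show DfT (fun w : Fin 1 → M => the (fun y => ∃ g, WAtt X R F g ∧ E (opair (w 0) y) g))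
    infer_instance
  have hWs : ∀ x y g, WAtt X R F g → E (opair x y) g → W x = y := fun x y g hg h =>
    the_eq (p := fun y => ∃ g, WAtt X R F g ∧ E (opair x y) g) ⟨g, hg, h⟩
      fun z ⟨g', hg', h'⟩ => hg'.uniq hR hF hw hg h' h
  let D : M := sep X (fun x => ∃ g y, WAtt X R F g ∧ E (opair x y) g)
  have hD : ∀ x, E x D ↔ E x X ∧ ∃ g y, WAtt X R F g ∧ E (opair x y) g := fun x => mem_sep
  let f : M := gr D W
  have hf : ∀ x y, E (opair x y) f ↔ E x D ∧ y = W x := fun x y => opair_mem_gr hW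
  have happ : ∀ x, E x D → app f x = W x := fun x hx => app_gr hW hx
  have hfA : WAtt X R F f := by
    intro x y hxy
    rw [hf] at hxy
    obtain ⟨hx, rfl⟩ := hxy
    obtain ⟨hxX, g, y, hg, hy⟩ := (hD x).1 hx
    obtain ⟨_, e1, c1, _⟩ := hg x y hy
    have hc : ∀ u, E u X → R u x → E u D ∧ app g u = W u := fun u hu hr => by
      obtain ⟨w, hw1⟩ := c1 u hu hr
      exact ⟨(hD u).2 ⟨hu, g, w, hg, hw1⟩, by rw [hg.app hw1, hWs u w g hg hw1]⟩
    refine ⟨hxX, ?_, fun u hu hr => ⟨W u, (hf u _).2 ⟨(hc u hu hr).1, rfl⟩⟩, fun y' hy' =>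
      ((hf x y').1 hy').2⟩
    rw [hWs x y g hg hy, e1]
    congr 1
    refine wfr_gr_congr inferInstance inferInstance fun u hu => ?_
    rw [mem_sep] at hu
    rw [(hc u hu.1 hu.2).2, happ u (hc u hu.1 hu.2).1]
  have hall : ∀ x, E x X → E x D := by
    by_contra hcon
    push Not at hcon
    obtain ⟨x1, hx1, hx1'⟩ := hcon
    obtain ⟨x, hx, hmin⟩ := hw (diff X D) (fun z hz => by rw [mem_diff] at hz; exact hz.1)
      ⟨x1, by rw [mem_diff]; exact ⟨hx1, hx1'⟩⟩
    rw [mem_diff] at hx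
    obtain ⟨hxX, hxD⟩ := hx
    have hpre : ∀ u, E u X → R u x → E u D := fun u hu hr => by
      by_contra hc
      exact hmin u (by rw [mem_diff]; exact ⟨hu, hc⟩) hr
    have hxx : ¬ R x x := fun hr => hxD (hpre x hxX hr)
    let v : M := F x (gr (sep X (fun y => R y x)) (fun y => app f y))
    let f' : M := ins (opair x v) f
    have hf' : ∀ u w, E (opair u w) f' ↔ (E u D ∧ w = W u) ∨ (u = x ∧ w = v) := fun u w => by
      show E (opair u w) (ins (opair x v) f) ↔ _
      rw [mem_ins, hf, opair_inj]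
    have happ' : ∀ u, E u D → app f' u = app f u := fun u hu => by
      rw [happ u hu]
      refine the_eq (p := fun w => E (opair u w) f') ((hf' u _).2 (Or.inl ⟨hu, rfl⟩))
        fun z hz => ?_
      rcases (hf' u z).1 hz with h | ⟨rfl, _⟩
      · exact h.2
      · exact absurd hu hxD
    have hf'A : WAtt X R F f' := by
      intro u w huw
      rcases (hf' u w).1 huw with ⟨hu, rfl⟩ | ⟨rfl, rfl⟩
      · obtain ⟨a1, a2, a3, a4⟩ := hfA u (W u) ((hf u _).2 ⟨hu, rfl⟩)
        refine ⟨a1, ?_, fun z hz hr => ?_, fun y' hy' => ?_⟩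
        · refine a2.trans ?_
          congr 1
          refine wfr_gr_congr inferInstance inferInstance fun z hz => ?_
          rw [mem_sep] at hz
          obtain ⟨w', hw'⟩ := a3 z hz.1 hz.2
          exact (happ' z ((hf z w').1 hw').1).symm
        · obtain ⟨w', hw'⟩ := a3 z hz hr
          exact ⟨w', (hf' z w').2 (Or.inl ((hf z w').1 hw'))⟩
        · rcases (hf' u y').1 hy' with h | ⟨rfl, _⟩
          · exact h.2
          · exact absurd hu hxD
      · refine ⟨hxX, ?_, fun z hz hr => ⟨W z, (hf' z _).2 (Or.inl ⟨hpre z hz hr, rfl⟩)⟩,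
          fun y' hy' => ?_⟩
        · show F u (gr (sep X (fun y => R y u)) (fun y => app f y)) = _
          congr 1
          refine wfr_gr_congr inferInstance inferInstance fun z hz => ?_
          rw [mem_sep] at hz
          exact (happ' z (hpre z hz.1 hz.2)).symm
        · rcases (hf' u y').1 hy' with h | h
          · exact absurd h.1 hxD
          · exact h.2
    exact hxD ((hD x).2 ⟨hxX, f', v, hf'A, (hf' x v).2 (Or.inr ⟨rfl, rfl⟩)⟩)
  refine ⟨f, fun x hx => ?_⟩
  rw [happ x (hall x hx)]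
  exact (hfA x (W x) ((hf x _).2 ⟨hall x hx, rfl⟩)).2.1

end SW.SEP
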